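import Mathlib

set_option autoImplicit false

/-!
# MP_10302a: neither `z_{3L}(m,n)` nor `z_{3A}(m,n)` is `O(m n^{1/2} + n)`

For `m = 2r+1` rows and `n = C(m,2) + 2x` columns let `E₁` consist of one column of weight two for
every pair of rows and of `2x` further columns whose only `1`-edge lies in row `0`; this has
`n + C(m,2) = z(m,n)` cells.  In the further columns pair the cell `(1+a, b)` of the first `x`
columns with the cell `(1+r+a, b)` of the last `x` columns.  The resulting augmented graph is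
simple and generalized cycle-free, and has `r x` two-edges.
-/

namespace Pool.Agent.Results.MP_10302a_co.PairedHalves

/-- An augmented graph on the cells `[m] × [n]`. -/
structure AugGraph (m n : ℕ) where
  E1 : Finset (Fin m × Fin n)
  E2 : Finset (Finset (Fin m × Fin n))
  E3 : Finset (Finset (Fin m × Fin n))
  card_E2 : ∀ e ∈ E2, e.card = 2
  card_E3 : ∀ e ∈ E3, e.card = 3

variable {m n : ℕ}

/-- The cell `c` lies in `E₁` or in a 2-edge. -/
def AugGraph.InLow (G : AugGraph m n) (c : Fin m × Fin n) : Prop :=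
  c ∈ G.E1 ∨ ∃ e ∈ G.E2, c ∈ e

/-- The cell `c` is occupied. -/
def AugGraph.Occupied (G : AugGraph m n) (c : Fin m × Fin n) : Prop :=
  c ∈ G.E1 ∨ (∃ e ∈ G.E2, c ∈ e) ∨ ∃ e ∈ G.E3, c ∈ e

/-- No cell lies in more than one edge. -/
def AugGraph.Simple (G : AugGraph m n) : Prop :=
  (∀ c ∈ G.E1, ∀ e ∈ G.E2 ∪ G.E3, c ∉ e) ∧
  ∀ e ∈ G.E2 ∪ G.E3, ∀ f ∈ G.E2 ∪ G.E3, e ≠ f → Disjoint e f

/-- Four cells forming a rectangle, all in the given set of cells. -/
def HasRectangle (E : Finset (Fin m × Fin n)) : Prop :=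
  ∃ (i k : Fin m) (j l : Fin n), i ≠ k ∧ j ≠ l ∧
    (i, j) ∈ E ∧ (i, l) ∈ E ∧ (k, j) ∈ E ∧ (k, l) ∈ E

/-- Condition 2. -/
def AugGraph.Cycle2 (G : AugGraph m n) : Prop :=
  ∃ (i k : Fin m) (j l : Fin n), i ≠ k ∧ j ≠ l ∧
    (∀ c ∈ ({(i, j), (i, l), (k, j), (k, l)} : Finset (Fin m × Fin n)), G.Occupied c) ∧
    ∃ e ∈ G.E2 ∪ G.E3, ∃ f ∈ G.E2 ∪ G.E3, e ≠ f ∧
      ({(i, j), (i, l), (k, j), (k, l)} : Finset (Fin m × Fin n)) ⊆ e ∪ f ∧
      (e ∩ {(i, j), (i, l), (k, j), (k, l)}).card = 2 ∧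
      (f ∩ {(i, j), (i, l), (k, j), (k, l)}).card = 2

/-- Condition 3. -/
def AugGraph.Cycle3 (G : AugGraph m n) : Prop :=
  ∃ (i p k : Fin m) (j q l : Fin n), {(i, j), (p, q)} ∈ G.E2 ∧
    k ≠ i ∧ k ≠ p ∧ l ≠ j ∧ l ≠ q ∧
    (∀ c ∈ [(k, j), (k, l), (k, q), (i, l), (p, l)], G.InLow c) ∧
    (i ≠ p ∧ j ≠ q → [(k, j), (k, l), (k, q), (i, l), (p, l)].Pairwise (· ≠ ·))

/-- Condition 4. -/
def AugGraph.Cycle4 (G : AugGraph m n) : Prop :=
  ∃ (i p u k : Fin m) (j q v l : Fin n), {(i, j), (p, q), (u, v)} ∈ G.E3 ∧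
    k ≠ i ∧ k ≠ p ∧ k ≠ u ∧ l ≠ j ∧ l ≠ q ∧ l ≠ v ∧
    (∀ c ∈ [(k, j), (k, l), (k, q), (k, v), (i, l), (p, l), (u, l)], G.Occupied c) ∧
    ((i ≠ p ∧ i ≠ u ∧ p ≠ u) ∧ (j ≠ q ∧ j ≠ v ∧ q ≠ v) →
      [(k, j), (k, l), (k, q), (k, v), (i, l), (p, l), (u, l)].Pairwise (· ≠ ·))

/-- Generalized cycle-free. -/
def AugGraph.CycleFree (G : AugGraph m n) : Prop :=
  ¬ HasRectangle G.E1 ∧ ¬ G.Cycle2 ∧ ¬ G.Cycle3 ∧ ¬ G.Cycle4

/-- The Zarankiewicz number `z(m,n)`. -/
noncomputable def z (m n : ℕ) : ℕ :=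
  sSup {k : ℕ | ∃ E : Finset (Fin m × Fin n), ¬ HasRectangle E ∧ k = E.card}

/-- `z_{3A}(m,n)`. -/
noncomputable def z3A (m n : ℕ) : ℕ :=
  sSup {k : ℕ | ∃ G : AugGraph m n, G.Simple ∧ G.CycleFree ∧
    k = G.E1.card + G.E2.card + G.E3.card}

/-- `z_{3L}(m,n)`. -/
noncomputable def z3L (m n : ℕ) : ℕ :=
  sSup {k : ℕ | ∃ G : AugGraph m n, G.Simple ∧ G.CycleFree ∧ G.E1.card = z m n ∧
    k = G.E1.card + G.E2.card + G.E3.card}

/-! ### the Zarankiewicz number with many columns -/

theorem le_one_add_choose (d : ℕ) : d ≤ 1 + d.choose 2 := by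
  induction d with
  | zero => simp
  | succ d ih =>
    rw [Nat.choose_succ_succ' d 1, Nat.choose_one_right]
    rcases Nat.eq_zero_or_pos d with rfl | h
    · simp
    · omega

def column (E : Finset (Fin m × Fin n)) (j : Fin n) : Finset (Fin m) :=
  Finset.univ.filter fun i => (i, j) ∈ E

theorem card_eq_sum_column (E : Finset (Fin m × Fin n)) :
    E.card = ∑ j, (column E j).card := by
  have h1 : E.card = ∑ c : Fin m × Fin n, if c ∈ E then 1 else 0 := by
    rw [← Finset.card_filter]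
    congr 1
    ext c
    simp
  rw [h1, Fintype.sum_prod_type_right]
  apply Finset.sum_congr rfl
  intro j _
  rw [column, Finset.card_filter]

theorem card_le_of_not_hasRectangle (E : Finset (Fin m × Fin n)) (h : ¬ HasRectangle E) :
    E.card ≤ n + m.choose 2 := by
  classical
  rw [card_eq_sum_column]
  have h1 : ∑ j, (column E j).card ≤ ∑ j : Fin n, (1 + ((column E j).card).choose 2) :=
    Finset.sum_le_sum fun j _ => le_one_add_choose _
  refine h1.trans ?_
  rw [Finset.sum_add_distrib]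
  simp only [Finset.sum_const, Finset.card_univ, Fintype.card_fin, smul_eq_mul, mul_one]
  apply Nat.add_le_add_left
  have h2 : ∑ j : Fin n, ((column E j).card).choose 2 =
      (Finset.univ.biUnion fun j : Fin n => (column E j).powersetCard 2).card := by
    rw [Finset.card_biUnion]
    · simp only [Finset.card_powersetCard]
    · intro j _ l _ hjl
      rw [Function.onFun, Finset.disjoint_left]
      intro P hP1 hP2
      rw [Finset.mem_powersetCard] at hP1 hP2
      obtain ⟨i, k, hik, rfl⟩ := Finset.card_eq_two.1 hP1.2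
      apply h
      have m1 := hP1.1 (Finset.mem_insert_self i _)
      have m2 := hP1.1 (Finset.mem_insert_of_mem (Finset.mem_singleton_self k))
      have m3 := hP2.1 (Finset.mem_insert_self i _)
      have m4 := hP2.1 (Finset.mem_insert_of_mem (Finset.mem_singleton_self k))
      simp only [column, Finset.mem_filter, Finset.mem_univ, true_and] at m1 m2 m3 m4
      exact ⟨i, k, j, l, hik, hjl, m1, m3, m2, m4⟩
  rw [h2]
  have h3 : (Finset.univ.biUnion fun j : Fin n => (column E j).powersetCard 2) ⊆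
      (Finset.univ : Finset (Fin m)).powersetCard 2 := by
    intro P hP
    rw [Finset.mem_biUnion] at hP
    obtain ⟨j, _, hj⟩ := hP
    rw [Finset.mem_powersetCard] at hj ⊢
    exact ⟨Finset.subset_univ _, hj.2⟩
  refine (Finset.card_le_card h3).trans ?_
  rw [Finset.card_powersetCard, Finset.card_univ, Fintype.card_fin]

theorem bdd_z (m n : ℕ) :
    BddAbove {k : ℕ | ∃ E : Finset (Fin m × Fin n), ¬ HasRectangle E ∧ k = E.card} := by
  refine ⟨n + m.choose 2, ?_⟩
  rintro k ⟨E, hE, rfl⟩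
  exact card_le_of_not_hasRectangle E hE

/-! ### the construction -/

/-- pairs of rows -/
abbrev Pairs (m : ℕ) : Type := {P : Finset (Fin m) // P.card = 2}

theorem card_pairs (m : ℕ) : Fintype.card (Pairs m) = m.choose 2 := by
  have := Fintype.card_finset_len (α := Fin m) 2
  rw [Fintype.card_fin] at this
  exact this

section construction

variable (r x : ℕ) (lab : Fin n ≃ Pairs (2 * r + 1) ⊕ (Fin x ⊕ Fin x))

def inE1 (c : Fin (2 * r + 1) × Fin n) : Prop :=
  match lab c.2 with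
  | Sum.inl P => c.1 ∈ P.1
  | Sum.inr _ => c.1 = 0

instance (c : Fin (2 * r + 1) × Fin n) : Decidable (inE1 r x lab c) := by
  unfold inE1
  split <;> infer_instance

def cellA (y : Fin r × Fin x) : Fin (2 * r + 1) × Fin n :=
  (⟨1 + y.1.val, by have := y.1.isLt; omega⟩, lab.symm (Sum.inr (Sum.inl y.2)))

def cellB (y : Fin r × Fin x) : Fin (2 * r + 1) × Fin n :=
  (⟨1 + r + y.1.val, by have := y.1.isLt; omega⟩, lab.symm (Sum.inr (Sum.inr y.2)))

theorem cellA_inj {y z : Fin r × Fin x} (h : cellA r x lab y = cellA r x lab z) : y = z := by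
  simp only [cellA, Prod.mk.injEq, Fin.mk.injEq, EmbeddingLike.apply_eq_iff_eq,
    Sum.inr.injEq, Sum.inl.injEq] at h
  exact Prod.ext (Fin.ext (by omega)) h.2

theorem cellB_inj {y z : Fin r × Fin x} (h : cellB r x lab y = cellB r x lab z) : y = z := by
  simp only [cellB, Prod.mk.injEq, Fin.mk.injEq, EmbeddingLike.apply_eq_iff_eq,
    Sum.inr.injEq] at h
  exact Prod.ext (Fin.ext (by omega)) h.2

theorem cellA_ne_cellB (y z : Fin r × Fin x) : cellA r x lab y ≠ cellB r x lab z := by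
  intro h
  simp only [cellA, cellB, Prod.mk.injEq, Fin.mk.injEq] at h
  have := y.1.isLt
  omega

def theEdge (y : Fin r × Fin x) : Finset (Fin (2 * r + 1) × Fin n) :=
  {cellA r x lab y, cellB r x lab y}

theorem mem_theEdge (y : Fin r × Fin x) (c : Fin (2 * r + 1) × Fin n) :
    c ∈ theEdge r x lab y ↔ c = cellA r x lab y ∨ c = cellB r x lab y := by
  simp [theEdge]

theorem theEdge_disjoint {y z : Fin r × Fin x} (h : y ≠ z) :
    Disjoint (theEdge r x lab y) (theEdge r x lab z) := by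
  rw [Finset.disjoint_left]
  intro c h1 h2
  rw [mem_theEdge] at h1 h2
  rcases h1 with rfl | rfl <;> rcases h2 with h2 | h2
  · exact h (cellA_inj r x lab h2)
  · exact cellA_ne_cellB r x lab y z h2
  · exact cellA_ne_cellB r x lab z y h2.symm
  · exact h (cellB_inj r x lab h2)

theorem theEdge_injective : Function.Injective (theEdge r x lab) := by
  intro y z h
  by_contra hne
  have h1 := theEdge_disjoint r x lab hne
  rw [h, disjoint_self] at h1
  have : cellA r x lab z ∈ theEdge r x lab z := by simp [theEdge]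
  rw [h1] at this
  exact absurd this (Finset.notMem_empty _)

def graph : AugGraph (2 * r + 1) n where
  E1 := Finset.univ.filter fun c => inE1 r x lab c
  E2 := Finset.univ.map ⟨theEdge r x lab, theEdge_injective r x lab⟩
  E3 := ∅
  card_E2 := by
    intro e he
    obtain ⟨y, _, rfl⟩ := Finset.mem_map.1 he
    exact Finset.card_pair (cellA_ne_cellB r x lab y y)
  card_E3 := by
    intro e he
    exact absurd he (Finset.notMem_empty _)

theorem mem_E2 {e : Finset (Fin (2 * r + 1) × Fin n)} (h : e ∈ (graph r x lab).E2) :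
    ∃ y, e = theEdge r x lab y := by
  obtain ⟨y, _, rfl⟩ := Finset.mem_map.1 h
  exact ⟨y, rfl⟩

theorem mem_E2' {e : Finset (Fin (2 * r + 1) × Fin n)}
    (h : e ∈ (graph r x lab).E2 ∪ (graph r x lab).E3) :
    ∃ y, e = theEdge r x lab y := by
  rw [Finset.mem_union] at h
  rcases h with h | h
  · exact mem_E2 r x lab h
  · exact absurd h (Finset.notMem_empty _)

/-- occupied cells in the columns of the second kind -/
theorem occ_left {c : Fin (2 * r + 1) × Fin n} (h : (graph r x lab).Occupied c) {b : Fin x}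
    (hb : lab c.2 = Sum.inr (Sum.inl b)) : c.1.val ≤ r := by
  rcases h with h | ⟨e, he, hce⟩ | ⟨e, he, _⟩
  · have h' : inE1 r x lab c := by simpa [graph] using h
    unfold inE1 at h'
    rw [hb] at h'
    simp only at h'
    rw [h']
    simp
  · obtain ⟨y, rfl⟩ := mem_E2 r x lab he
    rw [mem_theEdge] at hce
    rcases hce with rfl | rfl
    · simp only [cellA]
      have := y.1.isLt
      omega
    · simp [cellB] at hb
  · exact absurd he (Finset.notMem_empty _)

theorem occ_right {c : Fin (2 * r + 1) × Fin n} (h : (graph r x lab).Occupied c) {b : Fin x}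
    (hb : lab c.2 = Sum.inr (Sum.inr b)) : c.1.val = 0 ∨ r + 1 ≤ c.1.val := by
  rcases h with h | ⟨e, he, hce⟩ | ⟨e, he, _⟩
  · have h' : inE1 r x lab c := by simpa [graph] using h
    unfold inE1 at h'
    rw [hb] at h'
    simp only at h'
    left
    rw [h']
    simp
  · obtain ⟨y, rfl⟩ := mem_E2 r x lab he
    rw [mem_theEdge] at hce
    rcases hce with rfl | rfl
    · simp [cellA] at hb
    · right
      simp only [cellB]
      omega
  · exact absurd he (Finset.notMem_empty _)

theorem occ_pair {c : Fin (2 * r + 1) × Fin n} (h : (graph r x lab).Occupied c)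
    {P : Pairs (2 * r + 1)} (hb : lab c.2 = Sum.inl P) : c.1 ∈ P.1 := by
  rcases h with h | ⟨e, he, hce⟩ | ⟨e, he, _⟩
  · have h' : inE1 r x lab c := by simpa [graph] using h
    unfold inE1 at h'
    rw [hb] at h'
    exact h'
  · obtain ⟨y, rfl⟩ := mem_E2 r x lab he
    rw [mem_theEdge] at hce
    rcases hce with rfl | rfl
    · simp [cellA] at hb
    · simp [cellB] at hb
  · exact absurd he (Finset.notMem_empty _)

theorem cellA_row (y : Fin r × Fin x) :
    1 ≤ (cellA r x lab y).1.val ∧ (cellA r x lab y).1.val ≤ r := by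
  simp only [cellA]
  have := y.1.isLt
  omega

theorem cellB_row (y : Fin r × Fin x) : r + 1 ≤ (cellB r x lab y).1.val := by
  simp only [cellB]
  omega

theorem graph_simple : (graph r x lab).Simple := by
  constructor
  · intro c hc e he hce
    obtain ⟨y, rfl⟩ := mem_E2' r x lab he
    have h' : inE1 r x lab c := by simpa [graph] using hc
    unfold inE1 at h'
    rw [mem_theEdge] at hce
    rcases hce with rfl | rfl
    · simp [cellA, Fin.ext_iff] at h'
    · simp [cellB, Fin.ext_iff] at h'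
  · intro e he f hf hef
    obtain ⟨y, rfl⟩ := mem_E2' r x lab he
    obtain ⟨z, rfl⟩ := mem_E2' r x lab hf
    exact theEdge_disjoint r x lab (fun h => hef (by rw [h]))

theorem no_rectangle : ¬ HasRectangle (graph r x lab).E1 := by
  rintro ⟨i, k, j, l, hik, hjl, h1, h2, h3, h4⟩
  have key : ∀ j, (i, j) ∈ (graph r x lab).E1 → (k, j) ∈ (graph r x lab).E1 →
      ∃ P : Pairs (2 * r + 1), lab j = Sum.inl P ∧ P.1 = {i, k} := by
    intro j hi hk
    have hi' : inE1 r x lab (i, j) := by simpa [graph] using hi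
    have hk' : inE1 r x lab (k, j) := by simpa [graph] using hk
    unfold inE1 at hi' hk'
    rcases hl : lab j with P | b
    · rw [hl] at hi' hk'
      refine ⟨P, rfl, ?_⟩
      symm
      apply Finset.eq_of_subset_of_card_le
      · intro z hz
        rw [Finset.mem_insert, Finset.mem_singleton] at hz
        rcases hz with rfl | rfl
        · exact hi'
        · exact hk'
      · rw [P.2, Finset.card_pair hik]
    · rw [hl] at hi' hk'
      exact absurd (hi'.trans hk'.symm) hik
  obtain ⟨P, hP1, hP2⟩ := key j h1 h3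
  obtain ⟨Q, hQ1, hQ2⟩ := key l h2 h4
  apply hjl
  apply lab.injective
  rw [hP1, hQ1]
  congr 1
  exact Subtype.ext (hP2.trans hQ2.symm)

theorem no_cycle2 : ¬ (graph r x lab).Cycle2 := by
  rintro ⟨i, k, j, l, hik, hjl, hocc, e, he, f, hf, _, _, hcard, _⟩
  obtain ⟨y, rfl⟩ := mem_E2' r x lab he
  have hc2 : (theEdge r x lab y).card = 2 := Finset.card_pair (cellA_ne_cellB r x lab y y)
  have hsub : theEdge r x lab y ⊆ {(i, j), (i, l), (k, j), (k, l)} := by
    rw [← Finset.inter_eq_left]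
    apply Finset.eq_of_subset_of_card_le Finset.inter_subset_left
    rw [hcard, hc2]
  have hA := hsub ((mem_theEdge r x lab y _).2 (Or.inl rfl))
  have hB := hsub ((mem_theEdge r x lab y _).2 (Or.inr rfl))
  have hAB : ((cellA r x lab y).1, (cellB r x lab y).2) ∈
      ({(i, j), (i, l), (k, j), (k, l)} : Finset (Fin (2 * r + 1) × Fin n)) := by
    simp only [Finset.mem_insert, Finset.mem_singleton, Prod.ext_iff] at hA hB ⊢
    tauto
  have h1 := hocc _ hAB
  have h2 := occ_right r x lab h1 (b := y.2) (by simp [cellB])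
  have h3 := cellA_row r x lab y
  simp only at h2
  omega

theorem no_cycle3 : ¬ (graph r x lab).Cycle3 := by
  rintro ⟨i, p, k, j, q, l, he, hki, hkp, hlj, hlq, hocc, _⟩
  obtain ⟨y, hy⟩ := mem_E2 r x lab he
  have hlow : ∀ c, (graph r x lab).InLow c → (graph r x lab).Occupied c := by
    rintro c (h | h)
    · exact Or.inl h
    · exact Or.inr (Or.inl h)
  have o1 := hlow _ (hocc (k, l) (by simp))
  have o2 := hlow _ (hocc (i, l) (by simp))
  have o3 := hlow _ (hocc (p, l) (by simp))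
  have hi : (i, j) = cellA r x lab y ∨ (i, j) = cellB r x lab y := by
    rw [← mem_theEdge, ← hy]
    simp
  have hp : (p, q) = cellA r x lab y ∨ (p, q) = cellB r x lab y := by
    rw [← mem_theEdge, ← hy]
    simp
  have hA : cellA r x lab y = (i, j) ∨ cellA r x lab y = (p, q) := by
    have : cellA r x lab y ∈ ({(i, j), (p, q)} : Finset (Fin (2 * r + 1) × Fin n)) := by
      rw [hy]; simp [theEdge]
    simpa using this
  have hB : cellB r x lab y = (i, j) ∨ cellB r x lab y = (p, q) := by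
    have : cellB r x lab y ∈ ({(i, j), (p, q)} : Finset (Fin (2 * r + 1) × Fin n)) := by
      rw [hy]; simp [theEdge]
    simpa using this
  have rA := cellA_row r x lab y
  have rB := cellB_row r x lab y
  have hne := cellA_ne_cellB r x lab y y
  -- the rows `i` and `p`: one in the lower, one in the upper half
  have hrows : ((1 ≤ i.val ∧ i.val ≤ r) ∧ r + 1 ≤ p.val) ∨
      ((1 ≤ p.val ∧ p.val ≤ r) ∧ r + 1 ≤ i.val) := by
    rcases hA with hA | hA
    · rcases hB with hB | hB
      · exact absurd (hA.trans hB.symm) hne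
      · rw [hA] at rA
        rw [hB] at rB
        exact Or.inl ⟨rA, rB⟩
    · rcases hB with hB | hB
      · rw [hA] at rA
        rw [hB] at rB
        exact Or.inr ⟨rA, rB⟩
      · exact absurd (hA.trans hB.symm) hne
  rcases hl : lab l with P | (b | b)
  · have h1 := occ_pair r x lab o1 hl
    have h2 := occ_pair r x lab o2 hl
    have h3 := occ_pair r x lab o3 hl
    simp only at h1 h2 h3
    have hip : i ≠ p := by
      intro h
      rw [h] at hrows
      omega
    have hc : ({k, i, p} : Finset (Fin (2 * r + 1))).card = 3 := by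
      rw [Finset.card_eq_three]
      exact ⟨k, i, p, hki, hkp, hip, rfl⟩
    have hs : ({k, i, p} : Finset (Fin (2 * r + 1))) ⊆ P.1 := by
      intro w hw
      simp only [Finset.mem_insert, Finset.mem_singleton] at hw
      rcases hw with rfl | rfl | rfl
      · exact h1
      · exact h2
      · exact h3
    have := Finset.card_le_card hs
    rw [hc, P.2] at this
    omega
  · have h2 := occ_left r x lab o2 hl
    have h3 := occ_left r x lab o3 hl
    simp only at h2 h3
    omega
  · have h2 := occ_right r x lab o2 hl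
    have h3 := occ_right r x lab o3 hl
    simp only at h2 h3
    omega

theorem no_cycle4 : ¬ (graph r x lab).Cycle4 := by
  rintro ⟨i, p, u, k, j, q, v, l, he, _⟩
  exact absurd he (Finset.notMem_empty _)

theorem graph_cycleFree : (graph r x lab).CycleFree :=
  ⟨no_rectangle r x lab, no_cycle2 r x lab, no_cycle3 r x lab, no_cycle4 r x lab⟩

theorem card_E1 : (graph r x lab).E1.card = n + (2 * r + 1).choose 2 := by
  have hn : n = (2 * r + 1).choose 2 + (x + x) := by
    have := Fintype.card_congr lab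
    rw [Fintype.card_fin, Fintype.card_sum, card_pairs, Fintype.card_sum, Fintype.card_fin] at this
    exact this
  rw [card_eq_sum_column]
  have h1 : ∀ j, (column (graph r x lab).E1 j).card =
      (fun t : Pairs (2 * r + 1) ⊕ (Fin x ⊕ Fin x) => Sum.elim (fun _ => 2) (fun _ => 1) t)
        (lab j) := by
    intro j
    rcases hl : lab j with P | b
    · have : column (graph r x lab).E1 j = P.1 := by
        ext i
        simp [column, graph, inE1, hl]
      rw [this, P.2]
      simp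
    · have : column (graph r x lab).E1 j = {0} := by
        ext i
        simp [column, graph, inE1, hl]
      rw [this]
      simp
  simp_rw [h1]
  rw [Equiv.sum_comp lab
    (fun t : Pairs (2 * r + 1) ⊕ (Fin x ⊕ Fin x) => Sum.elim (fun _ => 2) (fun _ => 1) t),
    Fintype.sum_sum_type]
  simp only [Sum.elim_inl, Sum.elim_inr, Finset.sum_const, Finset.card_univ, smul_eq_mul,
    card_pairs, Fintype.card_sum, Fintype.card_fin]
  omega

include lab in
theorem z_eq : z (2 * r + 1) n = n + (2 * r + 1).choose 2 := by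
  apply le_antisymm
  · apply csSup_le
    · exact ⟨_, _, no_rectangle r x lab, rfl⟩
    · rintro k ⟨E, hE, rfl⟩
      exact card_le_of_not_hasRectangle E hE
  · rw [← card_E1 r x lab]
    exact le_csSup (bdd_z _ _) ⟨_, no_rectangle r x lab, rfl⟩

end construction

theorem bdd_aug (m n : ℕ) (p : AugGraph m n → Prop) :
    BddAbove {k : ℕ | ∃ G : AugGraph m n, G.Simple ∧ G.CycleFree ∧ p G ∧
    k = G.E1.card + G.E2.card + G.E3.card} := by
  refine ⟨Fintype.card (Fin m × Fin n) + Fintype.card (Finset (Fin m × Fin n)) +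
    Fintype.card (Finset (Fin m × Fin n)), ?_⟩
  rintro k ⟨G, _, _, _, rfl⟩
  exact Nat.add_le_add (Nat.add_le_add (Finset.card_le_univ _) (Finset.card_le_univ _))
    (Finset.card_le_univ _)

theorem z3L_le_z3A (m n : ℕ) : z3L m n ≤ z3A m n := by
  have hb := bdd_aug m n (fun _ => True)
  have hset : {k : ℕ | ∃ G : AugGraph m n, G.Simple ∧ G.CycleFree ∧ True ∧
      k = G.E1.card + G.E2.card + G.E3.card} = {k : ℕ | ∃ G : AugGraph m n,
      G.Simple ∧ G.CycleFree ∧ k = G.E1.card + G.E2.card + G.E3.card} := by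
    ext k
    simp
  rw [hset] at hb
  by_cases hne : {k : ℕ | ∃ G : AugGraph m n, G.Simple ∧ G.CycleFree ∧ G.E1.card = z m n ∧
    k = G.E1.card + G.E2.card + G.E3.card}.Nonempty
  · apply csSup_le_csSup hb hne
    rintro k ⟨G, h1, h2, _, h3⟩
    exact ⟨G, h1, h2, h3⟩
  · rw [Set.not_nonempty_iff_eq_empty] at hne
    unfold z3L
    rw [hne]
    simp

theorem lower (r x : ℕ) :
    ((2 * r + 1).choose 2 + 2 * x) + (2 * r + 1).choose 2 + r * x ≤
      z3L (2 * r + 1) ((2 * r + 1).choose 2 + 2 * x) := by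
  have hcard : Fintype.card (Fin ((2 * r + 1).choose 2 + 2 * x)) =
      Fintype.card (Pairs (2 * r + 1) ⊕ (Fin x ⊕ Fin x)) := by
    rw [Fintype.card_fin, Fintype.card_sum, card_pairs, Fintype.card_sum, Fintype.card_fin]
    omega
  let lab := Fintype.equivOfCardEq hcard
  apply le_csSup (bdd_aug _ _ _)
  refine ⟨graph r x lab, graph_simple r x lab, graph_cycleFree r x lab, ?_, ?_⟩
  · rw [card_E1, z_eq r x lab]
  · rw [card_E1]
    simp [graph]

/-- For `m = 2r+1` and `n = C(m,2) + 2x` one has `z_{3L}(m,n) ≥ z(m,n) + r x`, where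
`z(m,n) = n + C(m,2)`.  Consequently no constant `C` works for `z_{3L}` (Q2), and none works for
`z_{3A}` (Q1). -/
theorem result :
    (∀ r x : ℕ, z (2 * r + 1) ((2 * r + 1).choose 2 + 2 * x) + r * x ≤
      z3L (2 * r + 1) ((2 * r + 1).choose 2 + 2 * x)) ∧
    (¬ ∃ C : ℝ, ∀ m n : ℕ, 2 ≤ m → 2 ≤ n →
      (z3L m n : ℝ) ≤ C * ((m : ℝ) * (n : ℝ) ^ (1 / 2 : ℝ) + n)) ∧
    (¬ ∃ C : ℝ, ∀ m n : ℕ, 2 ≤ m → 2 ≤ n →
      (z3A m n : ℝ) ≤ C * ((m : ℝ) * (n : ℝ) ^ (1 / 2 : ℝ) + n)) := by
  have hL : ¬ ∃ C : ℝ, ∀ m n : ℕ, 2 ≤ m → 2 ≤ n →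
      (z3L m n : ℝ) ≤ C * ((m : ℝ) * (n : ℝ) ^ (1 / 2 : ℝ) + n) := by
    rintro ⟨C, hC⟩
    obtain ⟨r, hr⟩ := exists_nat_gt (max (100 * C) 1)
    have hr1 : (1 : ℝ) < r := lt_of_le_of_lt (le_max_right _ _) hr
    have hr2 : 100 * C < r := lt_of_le_of_lt (le_max_left _ _) hr
    have hrn : 1 < r := by exact_mod_cast hr1
    have hr0 : (0 : ℝ) < r := by linarith
    -- `x = 2r²`
    have hchoose : (2 * r + 1).choose 2 = r * (2 * r + 1) := by
      rw [Nat.choose_two_right]
      have : (2 * r + 1) * (2 * r + 1 - 1) = (r * (2 * r + 1)) * 2 := by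
        rw [Nat.add_sub_cancel]; ring
      rw [this, Nat.mul_div_cancel _ (by norm_num)]
    have h1 := lower r (2 * r ^ 2)
    have h2 := hC (2 * r + 1) ((2 * r + 1).choose 2 + 2 * (2 * r ^ 2)) (by omega)
      (by nlinarith)
    rw [hchoose] at h1 h2
    have h3 : (r : ℝ) * (2 * r ^ 2) ≤
        (z3L (2 * r + 1) (r * (2 * r + 1) + 2 * (2 * r ^ 2)) : ℝ) := by
      have : r * (2 * r ^ 2) ≤ z3L (2 * r + 1) (r * (2 * r + 1) + 2 * (2 * r ^ 2)) :=
        le_trans (by omega) h1
      exact_mod_cast this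
    have h4 : (((r * (2 * r + 1) + 2 * (2 * r ^ 2) : ℕ) : ℝ)) ≤ (3 * r) ^ 2 := by
      push_cast
      nlinarith
    have h5 : (((r * (2 * r + 1) + 2 * (2 * r ^ 2) : ℕ) : ℝ)) ^ (1 / 2 : ℝ) ≤ 3 * r := by
      rw [← Real.sqrt_eq_rpow]
      rw [show (3 * r : ℝ) = Real.sqrt ((3 * r) ^ 2) by
        rw [Real.sqrt_sq (by positivity)]]
      exact Real.sqrt_le_sqrt h4
    have hpos : 0 ≤ (((r * (2 * r + 1) + 2 * (2 * r ^ 2) : ℕ) : ℝ)) ^ (1 / 2 : ℝ) := by
      positivity
    have h6 : ((2 * r + 1 : ℕ) : ℝ) *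
        (((r * (2 * r + 1) + 2 * (2 * r ^ 2) : ℕ) : ℝ)) ^ (1 / 2 : ℝ) +
        ((r * (2 * r + 1) + 2 * (2 * r ^ 2) : ℕ) : ℝ) ≤ 18 * (r : ℝ) ^ 2 := by
      have h7 : ((2 * r + 1 : ℕ) : ℝ) ≤ 3 * r := by
        push_cast
        linarith
      have h8 : ((2 * r + 1 : ℕ) : ℝ) *
          (((r * (2 * r + 1) + 2 * (2 * r ^ 2) : ℕ) : ℝ)) ^ (1 / 2 : ℝ) ≤ 3 * r * (3 * r) :=
        mul_le_mul h7 h5 hpos (by positivity)
      nlinarith
    have hz : (0 : ℝ) < (r : ℝ) * (2 * r ^ 2) := by positivity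
    have hB : (0 : ℝ) < ((2 * r + 1 : ℕ) : ℝ) *
        (((r * (2 * r + 1) + 2 * (2 * r ^ 2) : ℕ) : ℝ)) ^ (1 / 2 : ℝ) +
        ((r * (2 * r + 1) + 2 * (2 * r ^ 2) : ℕ) : ℝ) := by
      have : (0 : ℝ) < ((r * (2 * r + 1) + 2 * (2 * r ^ 2) : ℕ) : ℝ) := by
        push_cast
        positivity
      have h9 : (0 : ℝ) ≤ ((2 * r + 1 : ℕ) : ℝ) *
        (((r * (2 * r + 1) + 2 * (2 * r ^ 2) : ℕ) : ℝ)) ^ (1 / 2 : ℝ) := by positivity
      linarith
    have hCpos : 0 < C := by
      by_contra hcon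
      push Not at hcon
      have := mul_nonpos_of_nonpos_of_nonneg hcon hB.le
      linarith
    have h10 : (r : ℝ) * (2 * r ^ 2) ≤ C * (18 * (r : ℝ) ^ 2) :=
      h3.trans (h2.trans (mul_le_mul_of_nonneg_left h6 hCpos.le))
    nlinarith [mul_pos hr0 hr0, mul_pos (mul_pos hr0 hr0) hr0]
  refine ⟨?_, hL, ?_⟩
  · intro r x
    have hcard : Fintype.card (Fin ((2 * r + 1).choose 2 + 2 * x)) =
        Fintype.card (Pairs (2 * r + 1) ⊕ (Fin x ⊕ Fin x)) := by
      rw [Fintype.card_fin, Fintype.card_sum, card_pairs, Fintype.card_sum, Fintype.card_fin]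
      omega
    rw [z_eq r x (Fintype.equivOfCardEq hcard)]
    exact lower r x
  · rintro ⟨C, hC⟩
    apply hL
    refine ⟨C, fun m n hm hn => le_trans ?_ (hC m n hm hn)⟩
    exact_mod_cast z3L_le_z3A m n

end Pool.Agent.Results.MP_10302a_co.PairedHalves
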